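import Mathlib

/-!
# Project IS (MP_3532bd_nt): definitions shared by the limit part and the sieve part

`Step R c κ`: for every finite list of pairwise disjoint finite sets `B 0, ..., B (r-1)` with
`κ s ≤ |B s|`, and every admissible progression, there is a probability weight `w` on arbitrarily
large integers `n` of the progression, with arbitrarily small atoms, such that for EVERY `s` the
event `∃ h ∈ B s, R (n + h)` has probability at least `c`.
-/

set_option autoImplicit false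

namespace Pool.Agent.H36.IS

/-- every prime factor `p` of `m` satisfies `m < p ^ r` -/
def RoughR (r m : ℕ) : Prop := ∀ p : ℕ, p.Prime → p ∣ m → m < p ^ r

/-- admissibility of the progression `a mod W` for the finite set of shifts `S` -/
def Adm (W a : ℕ) (S : Finset ℕ) : Prop :=
  0 < W ∧ (∀ p : ℕ, p.Prime → p ∣ W → ∀ h ∈ S, ¬ p ∣ a + h) ∧
    (∀ p : ℕ, p.Prime → ¬ p ∣ W → S.card < p)

open Classical in
/-- the sieve input -/
def Step (R : ℕ → Prop) (c : ℝ) (κ : ℕ → ℕ) : Prop :=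
  ∀ (r : ℕ) (B : Fin r → Finset ℕ), (∀ i j, i ≠ j → Disjoint (B i) (B j)) →
    (∀ s : Fin r, κ s ≤ (B s).card) →
    ∀ W a : ℕ, Adm W a (Finset.univ.biUnion B) →
    ∀ N : ℕ, ∃ (X : Finset ℕ) (w : ℕ → ℝ),
      (∀ n ∈ X, N ≤ n ∧ n ≡ a [MOD W] ∧ 0 ≤ w n ∧ (N : ℝ) * w n ≤ 1) ∧
      ∑ n ∈ X, w n = 1 ∧
      ∀ s : Fin r, c ≤ ∑ n ∈ X.filter (fun n => ∃ h ∈ B s, R (n + h)), w n

end Pool.Agent.H36.IS
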